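import Pool.Agent.Helper67.NO.St1

/-! Project NO (MP_26be5b_ag), module RNK: rank type implies stable. -/

set_option autoImplicit false

namespace Pool.Agent.Helper45.NO

open Pool.Agent.Helper67.NO
open Matrix

variable {ι κ : Type} [Fintype ι] [DecidableEq ι] [Fintype κ] [DecidableEq κ]

theorem RNK_powb {lev : κ → ℕ} {b : Matrix (ι ⊕ κ) (ι ⊕ κ) ℂ} (hb : Rai lev b) :
    ∀ (k : ℕ) (p q : ι ⊕ κ), (b ^ k) p q ≠ 0 → lv lev p = lv lev q + k := by
  intro k
  induction k with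
  | zero =>
    intro p q h
    rw [pow_zero, Matrix.one_apply] at h
    split_ifs at h with h1
    · rw [h1, add_zero]
    · exact absurd rfl h
  | succ k ih =>
    intro p q h
    rw [pow_succ, Matrix.mul_apply] at h
    obtain ⟨r, _, hr⟩ := Finset.exists_ne_zero_of_sum_ne_zero h
    have h1 := ih p r (left_ne_zero_of_mul hr)
    have h2 := hb r q (right_ne_zero_of_mul hr)
    omega

theorem RNK_powa {lev : κ → ℕ} {a : Matrix (ι ⊕ κ) (ι ⊕ κ) ℂ} (ha : Low lev a) :
    ∀ (k : ℕ) (p q : ι ⊕ κ), (a ^ k) p q ≠ 0 → lv lev q = lv lev p + k := by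
  intro k
  induction k with
  | zero =>
    intro p q h
    rw [pow_zero, Matrix.one_apply] at h
    split_ifs at h with h1
    · rw [h1, add_zero]
    · exact absurd rfl h
  | succ k ih =>
    intro p q h
    rw [pow_succ, Matrix.mul_apply] at h
    obtain ⟨r, _, hr⟩ := Finset.exists_ne_zero_of_sum_ne_zero h
    have h1 := ih p r (left_ne_zero_of_mul hr)
    have h2 := ha r q (right_ne_zero_of_mul hr)
    omega

theorem RNK_bd_mul (x y : Matrix ι ι ℂ) :
    (bd x 0 : Matrix (ι ⊕ κ) (ι ⊕ κ) ℂ) * bd y 0 = bd (x * y) 0 := by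
  unfold bd
  rw [Matrix.fromBlocks_multiply]
  simp

theorem RNK_aE {lev : κ → ℕ} {a : Matrix (ι ⊕ κ) (ι ⊕ κ) ℂ} (ha : Low lev a) (x : Matrix ι ι ℂ) :
    a * bd x 0 = 0 := by
  ext p q
  rw [Matrix.mul_apply, Matrix.zero_apply]
  refine Finset.sum_eq_zero fun r _ => ?_
  rcases r with r | r
  · have : a p (Sum.inl r) = 0 := by
      by_contra h
      have := ha _ _ h
      simp [lv] at this
    rw [this, zero_mul]
  · have : (bd x 0 : Matrix (ι ⊕ κ) (ι ⊕ κ) ℂ) (Sum.inr r) q = 0 := by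
      rcases q with q | q <;> simp [bd]
    rw [this, mul_zero]

theorem RNK_Eb {lev : κ → ℕ} {b : Matrix (ι ⊕ κ) (ι ⊕ κ) ℂ} (hb : Rai lev b) (x : Matrix ι ι ℂ) :
    bd x 0 * b = 0 := by
  ext p q
  rw [Matrix.mul_apply, Matrix.zero_apply]
  refine Finset.sum_eq_zero fun r _ => ?_
  rcases r with r | r
  · have : b (Sum.inl r) q = 0 := by
      by_contra h
      have := hb _ _ h
      simp [lv] at this
    rw [this, mul_zero]
  · have : (bd x 0 : Matrix (ι ⊕ κ) (ι ⊕ κ) ℂ) p (Sum.inr r) = 0 := by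
      rcases p with p | p <;> simp [bd]
    rw [this, zero_mul]

theorem RNK_ab {lev : κ → ℕ} {A : Matrix ι ι ℂ} {a b : Matrix (ι ⊕ κ) (ι ⊕ κ) ℂ} (h : Ch lev A a b) :
    ∀ i : ℕ, a * (b ^ (i + 1) * bd 1 0) = b ^ i * bd A 0 := by
  obtain ⟨ha, hb, hab⟩ := h
  have hab' : a * b = b * a + bd A 0 := by
    rw [← hab]
    unfold br
    abel
  intro i
  induction i with
  | zero =>
    rw [zero_add, pow_one, pow_zero, one_mul, ← mul_assoc, hab', add_mul, mul_assoc, RNK_aE ha, mul_zero,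
      zero_add, RNK_bd_mul, mul_one]
  | succ i ih =>
    have e1 : a * (b ^ (i + 1 + 1) * bd 1 0) = (a * b) * (b ^ (i + 1) * bd 1 0) := by
      rw [pow_succ' b (i + 1)]
      simp only [mul_assoc]
    have e2 : (bd A 0 : Matrix (ι ⊕ κ) (ι ⊕ κ) ℂ) * (b ^ (i + 1) * bd 1 0) = 0 := by
      rw [pow_succ' b i, mul_assoc b, ← mul_assoc, RNK_Eb hb, zero_mul]
    rw [e1, hab', add_mul, e2, add_zero, mul_assoc, ih, ← mul_assoc, ← pow_succ']

theorem RNK_akbk {lev : κ → ℕ} {A : Matrix ι ι ℂ} {a b : Matrix (ι ⊕ κ) (ι ⊕ κ) ℂ} (h : Ch lev A a b) :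
    ∀ k : ℕ, a ^ k * (b ^ k * bd 1 0) = bd (A ^ k) 0 := by
  intro k
  induction k with
  | zero => rw [pow_zero, pow_zero, pow_zero, one_mul, one_mul]
  | succ k ih =>
    have e1 : (bd A 0 : Matrix (ι ⊕ κ) (ι ⊕ κ) ℂ) = bd 1 0 * bd A 0 := by
      rw [RNK_bd_mul, one_mul]
    rw [pow_succ a k, mul_assoc, RNK_ab h k, e1, ← mul_assoc (b ^ k), ← mul_assoc, ih, RNK_bd_mul,
      ← pow_succ]

/-- the block of `a ^ (i + 1)` -/
noncomputable def RNKa (lev : κ → ℕ) (a : Matrix (ι ⊕ κ) (ι ⊕ κ) ℂ) (i : ℕ) : Matrix ι {q : κ // lev q = i} ℂ :=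
  Matrix.of fun p q => (a ^ (i + 1)) (Sum.inl p) (Sum.inr q.1)

/-- the block of `b ^ (i + 1)` -/
noncomputable def RNKb (lev : κ → ℕ) (b : Matrix (ι ⊕ κ) (ι ⊕ κ) ℂ) (i : ℕ) : Matrix {q : κ // lev q = i} ι ℂ :=
  Matrix.of fun q p => (b ^ (i + 1)) (Sum.inr q.1) (Sum.inl p)

theorem RNK_sum {lev : κ → ℕ} {a : Matrix (ι ⊕ κ) (ι ⊕ κ) ℂ} (ha : Low lev a) (i : ℕ) (p : ι)
    (w : ι ⊕ κ → ℂ) :
    ∑ r, (a ^ (i + 1)) (Sum.inl p) r * w r = ∑ q : {q : κ // lev q = i}, RNKa lev a i p q * w (Sum.inr q.1) := by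
  rw [Fintype.sum_sum_type]
  have h1 : ∑ r : ι, (a ^ (i + 1)) (Sum.inl p) (Sum.inl r) * w (Sum.inl r) = 0 := by
    refine Finset.sum_eq_zero fun r _ => ?_
    have : (a ^ (i + 1)) (Sum.inl p) (Sum.inl r) = 0 := by
      by_contra h
      have := RNK_powa ha _ _ _ h
      simp [lv] at this
    rw [this, zero_mul]
  rw [h1, zero_add]
  have h2 : ∀ q : κ, lev q ≠ i → (a ^ (i + 1)) (Sum.inl p) (Sum.inr q) * w (Sum.inr q) = 0 := by
    intro q hq
    have : (a ^ (i + 1)) (Sum.inl p) (Sum.inr q) = 0 := by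
      by_contra h
      have := RNK_powa ha _ _ _ h
      simp only [lv] at this
      omega
    rw [this, zero_mul]
  rw [← Finset.sum_filter_add_sum_filter_not Finset.univ (fun q : κ => lev q = i)]
  have h3 : ∑ q ∈ Finset.univ.filter (fun q : κ => ¬ lev q = i),
      (a ^ (i + 1)) (Sum.inl p) (Sum.inr q) * w (Sum.inr q) = 0 :=
    Finset.sum_eq_zero fun q hq => h2 q (Finset.mem_filter.1 hq).2
  rw [h3, add_zero]
  exact Finset.sum_subtype (F := inferInstance) (p := fun q : κ => lev q = i)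
    (Finset.univ.filter (fun q : κ => lev q = i)) (by simp)
    (fun q => (a ^ (i + 1)) (Sum.inl p) (Sum.inr q) * w (Sum.inr q))

theorem RNK_prod {lev : κ → ℕ} {A : Matrix ι ι ℂ} {a b : Matrix (ι ⊕ κ) (ι ⊕ κ) ℂ} (h : Ch lev A a b)
    (i : ℕ) : A ^ (i + 1) = RNKa lev a i * RNKb lev b i := by
  ext p p'
  have h1 := congrFun (congrFun (RNK_akbk h (i + 1)) (Sum.inl p)) (Sum.inl p')
  have e1 : (bd (A ^ (i + 1)) 0 : Matrix (ι ⊕ κ) (ι ⊕ κ) ℂ) (Sum.inl p) (Sum.inl p') = (A ^ (i + 1)) p p' := by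
    simp [bd]
  rw [e1, Matrix.mul_apply] at h1
  have e2 : ∀ r, (b ^ (i + 1) * bd 1 0 : Matrix (ι ⊕ κ) (ι ⊕ κ) ℂ) r (Sum.inl p') =
      (b ^ (i + 1)) r (Sum.inl p') := by
    intro r
    rw [Matrix.mul_apply, Fintype.sum_sum_type]
    simp [bd, Matrix.one_apply]
  simp_rw [e2] at h1
  rw [← h1, RNK_sum h.1 i p (fun r => (b ^ (i + 1)) r (Sum.inl p')), Matrix.mul_apply]
  rfl

theorem pRNK : StRNK := by
  intro ι κ _ _ _ _ lev A a b hRT hCh
  have hrk : ∀ i, Fintype.card {q : κ // lev q = i} ≤ (RNKa lev a i).rank ∧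
      Fintype.card {q : κ // lev q = i} ≤ (RNKb lev b i).rank := by
    intro i
    have h1 := hRT i
    rw [RNK_prod hCh i] at h1
    rw [← h1]
    exact ⟨Matrix.rank_mul_le_left _ _, Matrix.rank_mul_le_right _ _⟩
  constructor
  · intro w hw haw
    have key : ∀ i, (RNKa lev a i) *ᵥ (fun q => w (Sum.inr q.1)) = 0 := by
      intro i
      funext p
      have h1 := RNK_sum hCh.1 i p w
      have h2 : ∑ r, (a ^ (i + 1)) (Sum.inl p) r * w r = 0 := by
        have : (a ^ (i + 1)) *ᵥ w = 0 := by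
          rw [pow_succ, ← Matrix.mulVec_mulVec, haw, Matrix.mulVec_zero]
        exact congrFun this (Sum.inl p)
      rw [h2] at h1
      exact h1.symm
    have hinj : ∀ i, Function.Injective (RNKa lev a i).mulVecLin := by
      intro i
      rw [← LinearMap.ker_eq_bot]
      have h1 := LinearMap.finrank_range_add_finrank_ker (RNKa lev a i).mulVecLin
      have h2 := (hrk i).1
      unfold Matrix.rank at h2
      rw [Module.finrank_fintype_fun_eq_card] at h1
      exact Submodule.finrank_eq_zero.1 (by omega)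
    funext p
    rcases p with p | q
    · exact hw p
    · have h1 := hinj (lev q) (a₁ := fun q' => w (Sum.inr q'.1)) (a₂ := 0) (by
        rw [map_zero]
        exact key (lev q))
      exact congrFun h1 ⟨q, rfl⟩
  · intro w hw
    have hsur : ∀ i, ∃ v : ι → ℂ, (RNKb lev b i) *ᵥ v = fun q => w (Sum.inr q.1) := by
      intro i
      have h1 : LinearMap.range (RNKb lev b i).mulVecLin = ⊤ := by
        apply Submodule.eq_top_of_finrank_eq
        have h2 := (hrk i).2
        have h3 := Matrix.rank_le_card_height (RNKb lev b i)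
        unfold Matrix.rank at h2 h3
        rw [Module.finrank_fintype_fun_eq_card]
        omega
      have h2 : (fun q : {q : κ // lev q = i} => w (Sum.inr q.1)) ∈ LinearMap.range (RNKb lev b i).mulVecLin := by
        rw [h1]
        trivial
      obtain ⟨v, hv⟩ := h2
      exact ⟨v, hv⟩
    choose v hv using hsur
    obtain ⟨N, hN⟩ : ∃ N, ∀ q : κ, lev q < N := by
      refine ⟨(Finset.univ.sup lev) + 1, fun q => ?_⟩
      exact Nat.lt_succ_of_le (Finset.le_sup (Finset.mem_univ q))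
    refine ⟨∑ i ∈ Finset.range N, (b ^ i) *ᵥ (Sum.elim (v i) 0), ?_⟩
    have e0 : b *ᵥ (∑ i ∈ Finset.range N, (b ^ i) *ᵥ (Sum.elim (v i) 0)) =
        ∑ i ∈ Finset.range N, (b ^ (i + 1)) *ᵥ (Sum.elim (v i) 0) := by
      rw [← Matrix.mulVecLin_apply, map_sum]
      refine Finset.sum_congr rfl fun i _ => ?_
      rw [Matrix.mulVecLin_apply, Matrix.mulVec_mulVec, ← pow_succ']
    rw [e0]
    funext r
    rw [Finset.sum_apply]
    have e1 : ∀ i, ((b ^ (i + 1)) *ᵥ (Sum.elim (v i) 0)) r =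
        ∑ p : ι, (b ^ (i + 1)) r (Sum.inl p) * v i p := by
      intro i
      show ∑ s, (b ^ (i + 1)) r s * (Sum.elim (v i) 0 : ι ⊕ κ → ℂ) s = _
      rw [Fintype.sum_sum_type]
      simp
    simp_rw [e1]
    rcases r with p | q
    · rw [hw p]
      refine Finset.sum_eq_zero fun i _ => Finset.sum_eq_zero fun p' _ => ?_
      have : (b ^ (i + 1)) (Sum.inl p) (Sum.inl p') = 0 := by
        by_contra h
        have := RNK_powb hCh.2.1 _ _ _ h
        simp [lv] at this
      rw [this, zero_mul]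
    · rw [Finset.sum_eq_single (lev q)]
      · exact congrFun (hv (lev q)) ⟨q, rfl⟩
      · intro i _ hi
        refine Finset.sum_eq_zero fun p' _ => ?_
        have : (b ^ (i + 1)) (Sum.inr q) (Sum.inl p') = 0 := by
          by_contra h
          have := RNK_powb hCh.2.1 _ _ _ h
          simp only [lv] at this
          omega
        rw [this, zero_mul]
      · intro hn
        exact absurd (Finset.mem_range.2 (hN q)) hn

end Pool.Agent.Helper45.NO
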