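import Pool.Agent.Helper67.NO.St2

/-! Project NO (MP_26be5b_ag), module SM1: the potential is smooth, its gradient. -/

set_option autoImplicit false

namespace Pool.Agent.Helper45.NO

open Pool.Agent.Helper67.NO
open Matrix
open scoped Matrix.Norms.Frobenius ContDiff Topology

section Calc

variable {N : Type} [Fintype N] [DecidableEq N]
variable {E : Type} [NormedAddCommGroup E] [NormedSpace ℝ E]

theorem SM1_complete : CompleteSpace (Matrix N N ℂ) := FiniteDimensional.complete ℝ _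

theorem SM1_inv (G : E → Matrix N N ℂ) (x0 : E) (hG : ContDiffAt ℝ ∞ G x0) (hG1 : G x0 = 1) :
    ContDiffAt ℝ ∞ (fun g => (G g)⁻¹) x0 := by
  have := SM1_complete (N := N)
  have h1 : ContDiffAt ℝ ∞ (Ring.inverse : Matrix N N ℂ → Matrix N N ℂ) (G x0) := by
    rw [hG1]
    exact contDiffAt_ringInverse ℝ (1 : (Matrix N N ℂ)ˣ)
  have h2 : (fun g => (G g)⁻¹) = fun g => Ring.inverse (G g) := by
    funext g
    exact Matrix.nonsing_inv_eq_ringInverse (G g)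
  rw [h2]
  exact ContDiffAt.comp x0 h1 hG

theorem SM1_conj (G : E → Matrix N N ℂ) (x0 : E) (hG : ContDiffAt ℝ ∞ G x0) (hG1 : G x0 = 1)
    (hu : ∀ᶠ g in 𝓝 x0, IsUnit (G g)) (a : Matrix N N ℂ) :
    ContDiffAt ℝ ∞ (fun g => G g * a * (G g)⁻¹) x0 ∧
      ∀ X, fderiv ℝ (fun g => G g * a * (G g)⁻¹) x0 X = br (fderiv ℝ G x0 X) a := by
  have hI := SM1_inv G x0 hG hG1
  have hc : ContDiffAt ℝ ∞ (fun g => G g * a * (G g)⁻¹) x0 :=
    (hG.mul contDiffAt_const).mul hI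
  refine ⟨hc, fun X => ?_⟩
  set P : E → Matrix N N ℂ := fun g => G g * a * (G g)⁻¹ with hP
  have hP1 : P x0 = a := by
    simp only [hP, hG1, inv_one, mul_one, one_mul]
  have hdP : HasFDerivAt P (fderiv ℝ P x0) x0 := (hc.differentiableAt (by simp)).hasFDerivAt
  have hdG : HasFDerivAt G (fderiv ℝ G x0) x0 := (hG.differentiableAt (by simp)).hasFDerivAt
  have h1 := hdP.mul' hdG
  have h2 := hdG.mul_const' a
  have heq : (fun g => P g * G g) =ᶠ[𝓝 x0] fun g => G g * a := by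
    filter_upwards [hu] with g hg
    simp only [hP]
    rw [Matrix.mul_assoc, Matrix.nonsing_inv_mul _ ((Matrix.isUnit_iff_isUnit_det _).mp hg),
      Matrix.mul_one]
  have h3 := (h2.congr_of_eventuallyEq heq).unique h1
  have h4 := congrArg (fun L : E →L[ℝ] Matrix N N ℂ => L X) h3
  simp only [hP1, hG1] at h4
  have h5 : fderiv ℝ G x0 X * a = a * fderiv ℝ G x0 X + fderiv ℝ P x0 X * 1 := h4
  rw [mul_one] at h5
  unfold br
  rw [h5]
  abel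

/-- real part of the trace as a real linear map -/
noncomputable def SM1_tr : Matrix N N ℂ →ₗ[ℝ] ℝ where
  toFun x := (trace x).re
  map_add' x y := by rw [trace_add, Complex.add_re]
  map_smul' c x := by
    rw [trace_smul]
    simp

/-- conjugate transpose as a real linear map -/
def SM1_ct : Matrix N N ℂ →ₗ[ℝ] Matrix N N ℂ where
  toFun x := xᴴ
  map_add' x y := conjTranspose_add x y
  map_smul' c x := by
    ext i j
    simp

theorem SM1_sq (x : Matrix N N ℂ) : ‖x‖ ^ 2 = (trace (xᴴ * x)).re := by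
  rw [Matrix.frobenius_norm_def, ← Real.sqrt_eq_rpow, Real.sq_sqrt (by positivity)]
  rw [Matrix.trace, Complex.re_sum, Finset.sum_comm]
  refine Finset.sum_congr rfl fun j _ => ?_
  rw [Matrix.diag_apply, Matrix.mul_apply, Complex.re_sum]
  refine Finset.sum_congr rfl fun i _ => ?_
  rw [Matrix.conjTranspose_apply, Complex.star_def, ← Complex.normSq_eq_conj_mul_self,
    Complex.ofReal_re, Complex.normSq_eq_norm_sq]
  norm_cast

theorem SM1_norm (P : E → Matrix N N ℂ) (x0 : E) (hP : ContDiffAt ℝ ∞ P x0) :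
    ContDiffAt ℝ ∞ (fun g => ‖P g‖ ^ 2) x0 ∧
      ∀ X, fderiv ℝ (fun g => ‖P g‖ ^ 2) x0 X = 2 * (trace ((P x0)ᴴ * fderiv ℝ P x0 X)).re := by
  have h0 : (fun g => ‖P g‖ ^ 2) = fun g => (SM1_tr (N := N)).toContinuousLinearMap
      ((SM1_ct (N := N)).toContinuousLinearMap (P g) * P g) := by
    funext g
    rw [SM1_sq]
    rfl
  have hct : ContDiffAt ℝ ∞ (fun g => (SM1_ct (N := N)).toContinuousLinearMap (P g)) x0 :=
    ((SM1_ct (N := N)).toContinuousLinearMap.contDiff.contDiffAt).comp x0 hP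
  have hm : ContDiffAt ℝ ∞ (fun g => (SM1_ct (N := N)).toContinuousLinearMap (P g) * P g) x0 :=
    hct.mul hP
  refine ⟨?_, fun X => ?_⟩
  · rw [h0]
    exact ((SM1_tr (N := N)).toContinuousLinearMap.contDiff.contDiffAt).comp x0 hm
  · have hdP : HasFDerivAt P (fderiv ℝ P x0) x0 := (hP.differentiableAt (by simp)).hasFDerivAt
    have h1 := ((SM1_ct (N := N)).toContinuousLinearMap.hasFDerivAt (x := P x0)).comp x0 hdP
    have h2 := h1.mul' hdP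
    have h3 := ((SM1_tr (N := N)).toContinuousLinearMap.hasFDerivAt).comp x0 h2
    rw [h0]
    have h4 := congrArg (fun L : E →L[ℝ] ℝ => L X) h3.fderiv
    refine Eq.trans h4 ?_
    have h5 : ((trace ((P x0)ᴴ * fderiv ℝ P x0 X + (fderiv ℝ P x0 X)ᴴ * P x0)).re : ℝ)
        = 2 * (trace ((P x0)ᴴ * fderiv ℝ P x0 X)).re := by
      have h6 : (fderiv ℝ P x0 X)ᴴ * P x0 = ((P x0)ᴴ * fderiv ℝ P x0 X)ᴴ := by
        rw [conjTranspose_mul, conjTranspose_conjTranspose]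
      rw [h6, trace_add, trace_conjTranspose, Complex.add_re, Complex.star_def, Complex.conj_re]
      ring
    exact h5

theorem SM1_nsq (P Q : E → Matrix N N ℂ) (x0 : E) (hP : ContDiffAt ℝ ∞ P x0)
    (hQ : ContDiffAt ℝ ∞ Q x0) :
    ContDiffAt ℝ ∞ (fun g => nsq (P g) (Q g)) x0 ∧
      ∀ X, fderiv ℝ (fun g => nsq (P g) (Q g)) x0 X
        = 2 * (ip (P x0) (Q x0) (fderiv ℝ P x0 X) (fderiv ℝ Q x0 X)).re := by
  obtain ⟨p1, p2⟩ := SM1_norm P x0 hP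
  obtain ⟨q1, q2⟩ := SM1_norm Q x0 hQ
  have h0 : (fun g => nsq (P g) (Q g)) = fun g => ‖P g‖ ^ 2 + ‖Q g‖ ^ 2 := rfl
  rw [h0]
  refine ⟨p1.add q1, fun X => ?_⟩
  have h1 := (p1.differentiableAt (by simp)).hasFDerivAt.add
    (q1.differentiableAt (by simp)).hasFDerivAt
  have h2 := congrArg (fun L : E →L[ℝ] ℝ => L X) h1.fderiv
  refine Eq.trans h2 ?_
  have h3 : fderiv ℝ (fun g => ‖P g‖ ^ 2) x0 X + fderiv ℝ (fun g => ‖Q g‖ ^ 2) x0 X
      = 2 * (ip (P x0) (Q x0) (fderiv ℝ P x0 X) (fderiv ℝ Q x0 X)).re := by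
    rw [p2 X, q2 X]
    unfold ip
    rw [Complex.add_re]
    ring
  exact h3

end Calc

section Main

variable {ι κ : Type} [Fintype ι] [DecidableEq ι] [Fintype κ] [DecidableEq κ]

theorem SM1_RT (lev : κ → ℕ) (A g : Matrix ι ι ℂ) (hg : IsUnit g) (h : RT lev A) :
    RT lev (g * A * g⁻¹) := by
  intro i
  rw [← h i]
  have hd := (Matrix.isUnit_iff_isUnit_det _).mp hg
  have hp : ∀ k : ℕ, (g * A * g⁻¹) ^ k = g * A ^ k * g⁻¹ := by
    intro k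
    induction k with
    | zero => rw [pow_zero, pow_zero, mul_one, Matrix.mul_nonsing_inv _ hd]
    | succ k ih =>
      rw [pow_succ, ih, pow_succ]
      calc g * A ^ k * g⁻¹ * (g * A * g⁻¹) = g * A ^ k * (g⁻¹ * g) * A * g⁻¹ := by
            simp only [Matrix.mul_assoc]
        _ = g * (A ^ k * A) * g⁻¹ := by
            rw [Matrix.nonsing_inv_mul _ hd, Matrix.mul_one, Matrix.mul_assoc g]
  rw [hp]
  have hd2 : IsUnit (g⁻¹).det := by
    rw [Matrix.det_nonsing_inv]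
    exact hd.ringInverse
  rw [Matrix.rank_mul_eq_left_of_isUnit_det _ _ hd2, Matrix.rank_mul_eq_right_of_isUnit_det _ _ hd]

/-- the matrix `G` and its basic facts -/
theorem SM1_chain (h1 : StBL) (h2 : StLVL) (h3 : StBDA) (lev : κ → ℕ) (A g : Matrix ι ι ℂ)
    (y : Matrix κ κ ℂ) (a b : Matrix (ι ⊕ κ) (ι ⊕ κ) ℂ) (hg : IsUnit g) (hy : Lvl lev y)
    (hyu : IsUnit y) (hch : Ch lev A a b) :
    IsUnit (bd g y) ∧ Ch lev (g * A * g⁻¹) (bd g y * a * (bd g y)⁻¹) (bd g y * b * (bd g y)⁻¹) := by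
  obtain ⟨_, _, _, l4, l5, _, _, _⟩ := h1 ι κ lev
  obtain ⟨_, _, _, _, _, v6⟩ := h2 κ lev
  obtain ⟨d1, _, _, _, _, _, d7⟩ := h3 ι κ
  obtain ⟨ha, hb, hab⟩ := hch
  obtain ⟨hu, hinv⟩ := d7 g y hg hyu
  have hy' := v6 y hyu hy
  refine ⟨hu, ?_, ?_, ?_⟩
  · rw [hinv]
    exact (l4 _ (l4 a ha g y hy).1 g⁻¹ y⁻¹ hy').2
  · rw [hinv]
    exact (l5 _ (l5 b hb g y hy).1 g⁻¹ y⁻¹ hy').2
  · have hd := (Matrix.isUnit_iff_isUnit_det _).mp hu
    have e1 : br (bd g y * a * (bd g y)⁻¹) (bd g y * b * (bd g y)⁻¹)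
        = bd g y * br a b * (bd g y)⁻¹ := by
      have e2 : ∀ x z : Matrix (ι ⊕ κ) (ι ⊕ κ) ℂ,
          bd g y * x * (bd g y)⁻¹ * (bd g y * z * (bd g y)⁻¹) = bd g y * (x * z) * (bd g y)⁻¹ := by
        intro x z
        calc bd g y * x * (bd g y)⁻¹ * (bd g y * z * (bd g y)⁻¹)
            = bd g y * x * ((bd g y)⁻¹ * bd g y) * z * (bd g y)⁻¹ := by
              simp only [Matrix.mul_assoc]
          _ = bd g y * (x * z) * (bd g y)⁻¹ := by
              rw [Matrix.nonsing_inv_mul _ hd, Matrix.mul_one, Matrix.mul_assoc (bd g y) x z]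
      unfold br
      rw [e2, e2, Matrix.mul_sub, Matrix.sub_mul]
    rw [e1, hab, hinv, (d1 g A y 0).1, (d1 (g * A) g⁻¹ (y * 0) y⁻¹).1, Matrix.mul_zero,
      Matrix.zero_mul]

/-- block diagonal as a real linear map of the pair -/
noncomputable def SM1_bd : (Matrix ι ι ℂ × Matrix κ κ ℂ) →ₗ[ℝ] Matrix (ι ⊕ κ) (ι ⊕ κ) ℂ where
  toFun p := bd p.1 p.2
  map_add' p q := by
    unfold bd
    rw [Matrix.fromBlocks_add]
    simp
  map_smul' c p := by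
    unfold bd
    ext i j
    rcases i with i | i <;> rcases j with j | j <;> simp

theorem SM1_G (ξ : Matrix ι ι ℂ → Matrix κ κ ℂ) (hξ : ContDiffAt ℝ ∞ ξ 1) (hξ1 : ξ 1 = 0) :
    ContDiffAt ℝ ∞ (fun g => bd g (NormedSpace.exp (ξ g))) 1 ∧
      ∀ X, fderiv ℝ (fun g => bd g (NormedSpace.exp (ξ g))) 1 X = bd X (fderiv ℝ ξ 1 X) := by
  have := SM1_complete (N := κ)
  have he : ContDiffAt ℝ ∞ (fun g => NormedSpace.exp (ξ g)) 1 :=
    ((NormedSpace.exp_analytic (𝕂 := ℝ) (ξ 1)).contDiffAt).comp (1 : Matrix ι ι ℂ) hξ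
  have hp : ContDiffAt ℝ ∞ (fun g : Matrix ι ι ℂ => (g, NormedSpace.exp (ξ g))) 1 :=
    contDiffAt_id.prodMk he
  have h0 : (fun g => bd g (NormedSpace.exp (ξ g)))
      = fun g => (SM1_bd (ι := ι) (κ := κ)).toContinuousLinearMap (g, NormedSpace.exp (ξ g)) := rfl
  refine ⟨?_, fun X => ?_⟩
  · rw [h0]
    exact ((SM1_bd (ι := ι) (κ := κ)).toContinuousLinearMap.contDiff.contDiffAt).comp _ hp
  · have hdξ : HasFDerivAt ξ (fderiv ℝ ξ 1) 1 := (hξ.differentiableAt (by simp)).hasFDerivAt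
    have hde : HasFDerivAt (NormedSpace.exp : Matrix κ κ ℂ → Matrix κ κ ℂ)
        (1 : Matrix κ κ ℂ →L[ℝ] Matrix κ κ ℂ) (ξ 1) := by
      rw [hξ1]
      exact hasFDerivAt_exp_zero
    have h1 := hde.comp (1 : Matrix ι ι ℂ) hdξ
    have h2 := (hasFDerivAt_id (𝕜 := ℝ) (1 : Matrix ι ι ℂ)).prodMk h1
    have h3 := ((SM1_bd (ι := ι) (κ := κ)).toContinuousLinearMap.hasFDerivAt).comp _ h2
    rw [h0]
    have h4 := congrArg (fun L : Matrix ι ι ℂ →L[ℝ] Matrix (ι ⊕ κ) (ι ⊕ κ) ℂ => L X) h3.fderiv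
    exact h4

/-- the conclusion for one critical chain -/
theorem SM1_one (h1 : StBL) (h2 : StLVL) (h3 : StBDA) (h4 : StALG) (h5 : StRNK)
    (h7 : StCRI) (h8 : StIFT) (lev : κ → ℕ) (A : Matrix ι ι ℂ) (hA : RT lev A)
    (a b : Matrix (ι ⊕ κ) (ι ⊕ κ) ℂ) (H : Matrix ι ι ℂ) (hch : Ch lev A a b)
    (hm : mom a b = bd H 0) :
    ContDiffAt ℝ ∞ (fun g : Matrix ι ι ℂ => rho lev (g * A * g⁻¹)) 1 ∧
      ∀ X, fderiv ℝ (fun g : Matrix ι ι ℂ => rho lev (g * A * g⁻¹)) 1 X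
        = 2 * (trace (X * H)).re := by
  have hst := h5 ι κ lev A a b hA hch
  obtain ⟨ξ, hξ, hξ1, hev⟩ := h8 ι κ lev a b hch.1 hch.2.1 hst ⟨H, hm⟩
  obtain ⟨hG, hdG⟩ := SM1_G ξ hξ hξ1
  set G : Matrix ι ι ℂ → Matrix (ι ⊕ κ) (ι ⊕ κ) ℂ := fun g => bd g (NormedSpace.exp (ξ g)) with hGdef
  have hG1 : G 1 = 1 := by
    simp only [hGdef]
    rw [hξ1, NormedSpace.exp_zero]
    exact (h3 ι κ).2.2.2.1
  have hall : ∀ᶠ g in 𝓝 (1 : Matrix ι ι ℂ), IsUnit (G g) ∧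
      rho lev (g * A * g⁻¹) = nsq (G g * a * (G g)⁻¹) (G g * b * (G g)⁻¹) := by
    filter_upwards [hev] with g hg
    obtain ⟨hgu, hgl, _, hcr⟩ := hg
    have hex : Lvl lev (NormedSpace.exp (ξ g)) := ((h2 κ lev).2.2.2.2.1 _ hgl).2.2
    obtain ⟨hu, hc⟩ := SM1_chain h1 h2 h3 lev A g (NormedSpace.exp (ξ g)) a b hgu hex
      (Matrix.isUnit_exp _) hch
    exact ⟨hu, h7 ι κ lev _ _ _ (SM1_RT lev A g hgu hA) hc hcr⟩
  have hu : ∀ᶠ g in 𝓝 (1 : Matrix ι ι ℂ), IsUnit (G g) := hall.mono fun g hg => hg.1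
  have hr : (fun g : Matrix ι ι ℂ => rho lev (g * A * g⁻¹)) =ᶠ[𝓝 1]
      fun g => nsq (G g * a * (G g)⁻¹) (G g * b * (G g)⁻¹) := hall.mono fun g hg => hg.2
  obtain ⟨cP, dP⟩ := SM1_conj G 1 hG hG1 hu a
  obtain ⟨cQ, dQ⟩ := SM1_conj G 1 hG hG1 hu b
  obtain ⟨cN, dN⟩ := SM1_nsq (fun g => G g * a * (G g)⁻¹) (fun g => G g * b * (G g)⁻¹) 1 cP cQ
  refine ⟨cN.congr_of_eventuallyEq hr, fun X => ?_⟩
  rw [hr.fderiv_eq]
  refine (dN X).trans ?_
  have dP' : fderiv ℝ (fun g => G g * a * (G g)⁻¹) 1 X = br (bd X (fderiv ℝ ξ 1 X)) a :=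
    (dP X).trans (congrArg (fun z => br z a) (hdG X))
  have dQ' : fderiv ℝ (fun g => G g * b * (G g)⁻¹) 1 X = br (bd X (fderiv ℝ ξ 1 X)) b :=
    (dQ X).trans (congrArg (fun z => br z b) (hdG X))
  have key : 2 * (ip (G 1 * a * (G 1)⁻¹) (G 1 * b * (G 1)⁻¹) (br (bd X (fderiv ℝ ξ 1 X)) a)
      (br (bd X (fderiv ℝ ξ 1 X)) b)).re = 2 * (trace (X * H)).re := by
    rw [hG1, inv_one, mul_one, one_mul, mul_one, one_mul]
    rw [(h4 (ι ⊕ κ)).2.2.2.2.2.2.1, hm, ((h3 ι κ).1 X H (fderiv ℝ ξ 1 X) 0).1, Matrix.mul_zero,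
      ((h3 ι κ).2.1 (X * H) 0).2.2.1, trace_zero, add_zero]
  refine Eq.trans ?_ key
  exact congrArg₂ (fun u v => 2 * (ip (G 1 * a * (G 1)⁻¹) (G 1 * b * (G 1)⁻¹) u v).re) dP' dQ'

theorem pSM1 (h1 : StBL) (h2 : StLVL) (h3 : StBDA) (h4 : StALG) (h5 : StRNK) (h6 : StMIN)
    (h7 : StCRI) (h8 : StIFT) : StSM1 := by
  intro ι κ _ _ _ _ lev A hA
  obtain ⟨a0, b0, hch0, ⟨H0, hm0⟩, _⟩ := (h6 ι κ lev).1 A hA
  have hone := fun a b H hch hm => SM1_one h1 h2 h3 h4 h5 h7 h8 lev A hA a b H hch hm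
  refine ⟨(hone a0 b0 H0 hch0 hm0).1, fun a b H hch hm => ⟨?_, (hone a b H hch hm).2⟩⟩
  have hex : ∃ a b : Matrix (ι ⊕ κ) (ι ⊕ κ) ℂ, Ch lev A a b ∧ Crit a b := ⟨a, b, hch, H, hm⟩
  unfold Hm
  rw [dif_pos hex]
  obtain ⟨hc1, H1, hm1⟩ := hex.choose_spec.choose_spec
  have hd1 := (hone _ _ H1 hc1 hm1).2
  have hd2 := (hone a b H hch hm).2
  rw [hm1]
  have hb : (bd H1 (0 : Matrix κ κ ℂ)).toBlocks₁₁ = H1 := by
    unfold bd
    exact Matrix.toBlocks_fromBlocks₁₁ _ _ _ _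
  rw [hb]
  have hz : ∀ X : Matrix ι ι ℂ, (trace (X * (H1 - H))).re = 0 := by
    intro X
    have e1 := hd1 X
    rw [hd2 X] at e1
    rw [Matrix.mul_sub, trace_sub, Complex.sub_re]
    linarith
  have h9 := hz (H1 - H)ᴴ
  have h10 : ‖H1 - H‖ ^ 2 = 0 := by rw [SM1_sq, h9]
  have h11 : H1 - H = 0 := by
    rw [← norm_eq_zero]
    exact pow_eq_zero_iff (two_ne_zero) |>.mp h10
  exact sub_eq_zero.mp h11

end Main

end Pool.Agent.Helper45.NO
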